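import Pool.Agent.RDO.Good

/-!
# An RD domain which is not Ore

Right modules over `R` are modules over the opposite ring `Rᵐᵒᵖ`; for `x` in such a module and
`r : R`, the element `x r` is `MulOpposite.op r • x`.

The ring is the union of a chain `k = R₀ ⊆ R₁ ⊆ ...`, where `Rₙ₊₁` is the universal extension of
`Rₙ` in which every regular rectangular matrix `A` over `Rₙ` fits into mutually inverse (up to one
corner) matrices, so that `A` becomes a retract of a single element. Normal forms show that every
stage is a domain, formal smoothness of the stages reduces arbitrary matrices to regular ones, and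
the new generators are right independent at all later stages.
-/

namespace Pool.Agent.Results.MP_b17c42_al.RDDomainNotOre

universe u

/-- The submodule `N` of the right `R`-module `M` is relatively divisible (RD-pure):
`N ∩ M r = N r` for every `r : R`. -/
def IsRDPure {R : Type} {M : Type u} [Ring R] [AddCommGroup M] [Module Rᵐᵒᵖ M]
    (N : Submodule Rᵐᵒᵖ M) : Prop :=
  ∀ r : R, (N : Set M) ∩ Set.range (fun z : M => MulOpposite.op r • z) =
    (fun z : M => MulOpposite.op r • z) '' (N : Set M)

/-- The submodule `N` of the right `R`-module `M` is pure: every finite system of linear equations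
`∑ i, x i * a i j = b j` with parameters `b j` in `N` that has a solution in `M` has a solution
in `N`. -/
def IsPure {R : Type} {M : Type u} [Ring R] [AddCommGroup M] [Module Rᵐᵒᵖ M]
    (N : Submodule Rᵐᵒᵖ M) : Prop :=
  ∀ (n m : ℕ) (a : Fin n → Fin m → R) (b : Fin m → M), (∀ j, b j ∈ N) →
    (∃ x : Fin n → M, ∀ j, ∑ i, MulOpposite.op (a i j) • x i = b j) →
    ∃ x : Fin n → M, (∀ i, x i ∈ N) ∧ ∀ j, ∑ i, MulOpposite.op (a i j) • x i = b j

/-- `R` is an RD ring: every RD-pure submodule of a right `R`-module is pure. -/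
def IsRDRing (R : Type) [Ring R] : Prop :=
  ∀ (M : Type u) [AddCommGroup M] [Module Rᵐᵒᵖ M] (N : Submodule Rᵐᵒᵖ M), IsRDPure N → IsPure N

/-- There is an RD domain with nonzero elements `a`, `b` such that `a R ∩ b R = 0`. -/
theorem result : ∃ (R : Type) (_ : Ring R), IsDomain R ∧ IsRDRing.{u} R ∧
    ∃ a b : R, a ≠ 0 ∧ b ≠ 0 ∧
      Set.range (fun x : R => a * x) ∩ Set.range (fun y : R => b * y) = {0} := by
  refine ⟨Pool.Agent.RDO.Lim ℚ, inferInstance, inferInstance, ?_, ?_⟩
  · intro M _ _ N hN n m a b hb hx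
    obtain ⟨x, hx⟩ := hx
    have hN' : ∀ (r : Pool.Agent.RDO.Lim ℚ) (x : M), MulOpposite.op r • x ∈ N →
        ∃ y ∈ N, MulOpposite.op r • y = MulOpposite.op r • x := by
      intro r x hrx
      have h1 : MulOpposite.op r • x ∈
          (N : Set M) ∩ Set.range (fun z : M => MulOpposite.op r • z) := ⟨hrx, x, rfl⟩
      rw [hN r] at h1
      obtain ⟨y, hy, hy2⟩ := h1
      exact ⟨y, hy, hy2⟩
    obtain ⟨y, hy, hy2⟩ := Pool.Agent.RDO.lim_good ℚ hN' (A := a) x (by
      intro j
      have : Pool.Agent.RDO.vm x a j = b j := hx j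
      rw [this]; exact hb j)
    refine ⟨y, hy, fun j => ?_⟩
    rw [← hx j]
    exact congrFun hy2 j
  · obtain ⟨a, b, hab⟩ := Pool.Agent.RDO.exists_RInd ℚ
    refine ⟨a, b, ?_, ?_, ?_⟩
    · rintro rfl
      have := (hab 1 0 (by simp)).1
      exact one_ne_zero this
    · rintro rfl
      have := (hab 0 1 (by simp)).2
      exact one_ne_zero this
    · apply Set.eq_singleton_iff_unique_mem.2
      refine ⟨⟨⟨0, by simp⟩, ⟨0, by simp⟩⟩, ?_⟩
      rintro z ⟨⟨x, rfl⟩, ⟨y, hy⟩⟩
      have hy' : b * y = a * x := hy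
      have h1 := (hab x (-y) (by rw [mul_neg, hy', add_neg_cancel])).1
      simp [h1]

end Pool.Agent.Results.MP_b17c42_al.RDDomainNotOre
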